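import Mathlib

/-!
# Lower central quotients of free type are induced by a homomorphism

If all lower central quotients of `Γ` are isomorphic to those of a free group `F` (any rank), then
some homomorphism `F → Γ` induces isomorphisms on all lower central quotients.
-/

set_option autoImplicit false

namespace Pool.Agent.Results.MP_b9ac25_al.FreeTypeInduced

open scoped commutatorElement

universe u v

/-- `C j G` is the `j`-th term of the lower central series, `C^1 G = G`,
`C^{j+1} G = [C^j G, G]`, here with `n = j - 1 ≥ 0`: `gam G n = C^{n+1} G`. -/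
abbrev gam (G : Type u) [Group G] (n : ℕ) : Subgroup G := (⊤ : Subgroup G).lowerCentralSeries n

section basics
variable {G : Type u} [Group G]

theorem gam_map_le {K : Type v} [Group K] (f : G →* K) (n : ℕ) : (gam G n).map f ≤ gam K n := by
  rw [Subgroup.map_lowerCentralSeries]
  exact Subgroup.lowerCentralSeries_mono n le_top

theorem gam_le_comap {K : Type v} [Group K] (f : G →* K) (n : ℕ) : gam G n ≤ (gam K n).comap f :=
  Subgroup.map_le_iff_le_comap.1 (gam_map_le f n)

theorem gam_map_surj {K : Type v} [Group K] (f : G →* K) (hf : Function.Surjective f) (n : ℕ) :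
    (gam G n).map f = gam K n := by
  rw [Subgroup.map_lowerCentralSeries, ← MonoidHom.range_eq_map, MonoidHom.range_eq_top.2 hf]

theorem gam_quot (n : ℕ) : gam (G ⧸ gam G n) n = ⊥ := by
  rw [← gam_map_surj (QuotientGroup.mk' (gam G n)) (QuotientGroup.mk'_surjective _) n,
    eq_bot_iff]
  rintro _ ⟨x, hx, rfl⟩
  exact (QuotientGroup.eq_one_iff _).2 hx

theorem comm_gam {i : ℕ} {a v : G} (ha : a ∈ gam G i) (hv : v ∈ gam G 1) :
    ⁅a, v⁆ ∈ gam G (i + 2) := by
  set N := gam G (i + 2) with hN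
  have hcen : ∀ z ∈ gam G (i + 1), (QuotientGroup.mk' N z) ∈ Subgroup.center (G ⧸ N) := by
    intro z hz
    rw [Subgroup.mem_center_iff]
    intro q
    obtain ⟨g, rfl⟩ := QuotientGroup.mk'_surjective N q
    have h1 : ⁅z, g⁆ ∈ N := Subgroup.commutator_mem_commutator hz (Subgroup.mem_top _)
    have h2 : QuotientGroup.mk' N ⁅z, g⁆ = 1 := (QuotientGroup.eq_one_iff _).2 h1
    rw [map_commutatorElement, commutatorElement_eq_one_iff_mul_comm] at h2
    exact h2.symm
  have hab : ∀ b : G, ⁅a, b⁆ ∈ gam G (i + 1) := fun b =>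
    Subgroup.commutator_mem_commutator ha (Subgroup.mem_top _)
  let f : G →* Subgroup.center (G ⧸ N) := MonoidHom.mk'
    (fun b => ⟨QuotientGroup.mk' N ⁅a, b⁆, hcen _ (hab b)⟩) (by
      intro b c
      apply Subtype.ext
      show QuotientGroup.mk' N ⁅a, b * c⁆ = QuotientGroup.mk' N ⁅a, b⁆ * QuotientGroup.mk' N ⁅a, c⁆
      have e : ⁅a, b * c⁆ = ⁅a, b⁆ * (b * ⁅a, c⁆ * b⁻¹) := by
        simp only [commutatorElement_def]; group
      rw [e, map_mul, map_mul, map_mul]
      have h3 := Subgroup.mem_center_iff.1 (hcen _ (hab c)) (QuotientGroup.mk' N b)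
      rw [h3, map_inv, mul_inv_cancel_right])
  have hv' : v ∈ commutator G := by
    rw [← Subgroup.top_lowerCentralSeries_one]; exact hv
  have hle : commutator G ≤ f.ker := by
    rw [commutator_def, Subgroup.commutator_le]
    intro b _ c _
    rw [MonoidHom.mem_ker, map_commutatorElement, commutatorElement_eq_one_iff_mul_comm]
    apply Subtype.ext
    exact (Subgroup.mem_center_iff.1 (f b).2 (f c)).symm
  have h1 : f v = 1 := hle hv'
  have h2 : QuotientGroup.mk' N ⁅a, v⁆ = 1 := by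
    have h3 : ((f v : Subgroup.center (G ⧸ N)) : G ⧸ N) = 1 := by rw [h1]; rfl
    exact h3
  exact (QuotientGroup.eq_one_iff _).1 h2

/-- elements moved by `ρ` only within `C^{n+1}` -/
def Sg (ρ : G →* G) (n : ℕ) : Subgroup G where
  carrier := {x | ρ x * x⁻¹ ∈ gam G n}
  one_mem' := by simp
  mul_mem' := by
    intro x y hx hy
    have e : ρ (x * y) * (x * y)⁻¹ = (ρ x * x⁻¹) * (x * (ρ y * y⁻¹) * x⁻¹) := by
      rw [map_mul]; group
    show ρ (x * y) * (x * y)⁻¹ ∈ gam G n
    rw [e]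
    exact mul_mem hx ((inferInstance : (gam G n).Normal).conj_mem _ hy _)
  inv_mem' := by
    intro x hx
    have e : ρ x⁻¹ * (x⁻¹)⁻¹ = x⁻¹ * (ρ x * x⁻¹)⁻¹ * (x⁻¹)⁻¹ := by
      rw [map_inv]; group
    show ρ x⁻¹ * (x⁻¹)⁻¹ ∈ gam G n
    rw [e]
    exact (inferInstance : (gam G n).Normal).conj_mem _ (inv_mem hx) _

theorem ia_gam (ρ : G →* G) (h : ∀ x, ρ x * x⁻¹ ∈ gam G 1) (i : ℕ) :
    ∀ x ∈ gam G i, ρ x * x⁻¹ ∈ gam G (i + 1) := by
  induction i with
  | zero => intro x _; exact h x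
  | succ i ih =>
    have key : gam G (i + 1) ≤ Sg ρ (i + 2) := by
      show ⁅gam G i, (⊤ : Subgroup G)⁆ ≤ _
      rw [Subgroup.commutator_le]
      intro a ha b _
      show ρ ⁅a, b⁆ * ⁅a, b⁆⁻¹ ∈ gam G (i + 2)
      obtain ⟨p, hp, hp'⟩ : ∃ p ∈ gam G (i + 1), ρ a = p * a :=
        ⟨ρ a * a⁻¹, ih a ha, by group⟩
      obtain ⟨q, hq, hq'⟩ : ∃ q ∈ gam G 1, ρ b = q * b := ⟨ρ b * b⁻¹, h b, by group⟩
      rw [map_commutatorElement, hp', hq']
      have c1 : ⁅p, q * b⁆ ∈ gam G (i + 2) :=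
        Subgroup.commutator_mem_commutator hp (Subgroup.mem_top _)
      have c2 : ⁅a, q⁆ ∈ gam G (i + 2) := comm_gam ha hq
      have c3 : ⁅q, ⁅a, b⁆⁆ ∈ gam G (i + 2) := by
        rw [← commutatorElement_inv]
        exact inv_mem (Subgroup.commutator_mem_commutator
          (Subgroup.commutator_mem_commutator ha (Subgroup.mem_top _)) (Subgroup.mem_top _))
      have e : ⁅p * a, q * b⁆ * ⁅a, b⁆⁻¹ = (p * ⁅a, q⁆ * p⁻¹) * (p * ⁅q, ⁅a, b⁆⁆ * p⁻¹) *
          ((p * ⁅a, b⁆ * p⁻¹) * ⁅p, q * b⁆ * (p * ⁅a, b⁆ * p⁻¹)⁻¹) * ⁅p, ⁅a, b⁆⁆ := by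
        simp only [commutatorElement_def]; group
      have hn : (gam G (i + 2)).Normal := inferInstance
      have c4 : ⁅p, ⁅a, b⁆⁆ ∈ gam G (i + 2) :=
        Subgroup.commutator_mem_commutator hp (Subgroup.mem_top _)
      rw [e]
      exact mul_mem (mul_mem (mul_mem (hn.conj_mem _ c2 _) (hn.conj_mem _ c3 _))
        (hn.conj_mem _ c1 _)) c4
    exact fun x hx => key hx

theorem ia_bij (ρ : G →* G) (h : ∀ x, ρ x * x⁻¹ ∈ gam G 1) {n : ℕ} (hn : gam G n = ⊥) :
    Function.Bijective ρ := by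
  have hi := ia_gam ρ h
  constructor
  · rw [injective_iff_map_eq_one]
    intro x hx
    have : ∀ i, x ∈ gam G i := by
      intro i
      induction i with
      | zero => exact Subgroup.mem_top _
      | succ i ih =>
        have := hi i x ih
        rw [hx, one_mul] at this
        exact inv_mem_iff.1 this
    have h1 := this n
    rwa [hn, Subgroup.mem_bot] at h1
  · have : ∀ i, i ≤ n → ∀ x ∈ gam G (n - i), x ∈ ρ.range := by
      intro i
      induction i with
      | zero =>
        intro _ x hx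
        rw [Nat.sub_zero, hn, Subgroup.mem_bot] at hx
        rw [hx]; exact one_mem _
      | succ i ih =>
        intro hin x hx
        have h1 := hi _ x hx
        have h2 : n - (i + 1) + 1 = n - i := by omega
        rw [h2] at h1
        have h3 := ih (by omega) _ h1
        have h4 : x = (ρ x * x⁻¹)⁻¹ * ρ x := by group
        rw [h4]
        exact mul_mem (inv_mem h3) ⟨x, rfl⟩
    intro x
    have h1 := this n le_rfl x (by rw [Nat.sub_self]; exact Subgroup.mem_top _)
    exact h1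

end basics

/-- An endomorphism of a free nilpotent group (of any rank) inducing a bijection on the
abelianization is bijective. -/
theorem free_nilp {X : Type v} {n : ℕ} (θ : FreeGroup X ⧸ gam (FreeGroup X) n →*
    FreeGroup X ⧸ gam (FreeGroup X) n)
    (ha : ∀ y, ∃ x, θ x * y⁻¹ ∈ gam (FreeGroup X ⧸ gam (FreeGroup X) n) 1)
    (hb : ∀ x, θ x ∈ gam (FreeGroup X ⧸ gam (FreeGroup X) n) 1 →
      x ∈ gam (FreeGroup X ⧸ gam (FreeGroup X) n) 1) : Function.Bijective θ := by
  set N := FreeGroup X ⧸ gam (FreeGroup X) n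
  have hN : gam N n = ⊥ := gam_quot n
  let π : FreeGroup X →* N := QuotientGroup.mk' (gam (FreeGroup X) n)
  have hπ : Function.Surjective π := QuotientGroup.mk'_surjective _
  choose w hw using fun x : X => ha (π (FreeGroup.of x))
  let ψ0 : FreeGroup X →* N := FreeGroup.lift w
  let ψ : N →* N := QuotientGroup.lift (gam (FreeGroup X) n) ψ0 (by
    intro g hg
    have := gam_map_le ψ0 n ⟨g, hg, rfl⟩
    rwa [hN, Subgroup.mem_bot] at this)
  have hψ : ∀ g, ψ (π g) = ψ0 g := fun g => rfl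
  -- `θ ∘ ψ`
  have h1 : ∀ y, (θ.comp ψ) y * y⁻¹ ∈ gam N 1 := by
    have : (⊤ : Subgroup (FreeGroup X)) ≤ (Sg (θ.comp ψ) 1).comap π := by
      refine le_trans (FreeGroup.closure_range_of X).ge ?_
      rw [Subgroup.closure_le]
      rintro _ ⟨x, rfl⟩
      show θ (ψ (π (FreeGroup.of x))) * (π (FreeGroup.of x))⁻¹ ∈ gam N 1
      rw [hψ]
      simp only [ψ0, FreeGroup.lift_apply_of]
      exact hw x
    intro y
    obtain ⟨g, rfl⟩ := hπ y
    exact this (Subgroup.mem_top g)
  have h2 : ∀ y, (ψ.comp θ) y * y⁻¹ ∈ gam N 1 := by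
    intro y
    apply hb
    rw [map_mul, map_inv]
    exact h1 (θ y)
  have b1 := ia_bij _ h1 hN
  have b2 := ia_bij _ h2 hN
  refine ⟨Function.Injective.of_comp (f := ψ) b2.1, Function.Surjective.of_comp (g := ψ) b1.2⟩

/-- the map of lower central quotients induced by a homomorphism -/
def ind {A : Type u} {B : Type v} [Group A] [Group B] (φ : A →* B) (n : ℕ) :
    A ⧸ gam A n →* B ⧸ gam B n :=
  QuotientGroup.map (gam A n) (gam B n) φ (gam_le_comap φ n)

/-- Property (P1): for some free group `F` on a set `X`, `Γ/C^jΓ ≅ F/C^jF` for all `j ≥ 1`. -/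
def P1 (Γ : Type u) [Group Γ] : Prop := ∃ X : Type u,
  ∀ n : ℕ, Nonempty (Γ ⧸ gam Γ n ≃* FreeGroup X ⧸ gam (FreeGroup X) n)

/-- Property (P2): some homomorphism `φ` from a free group `F` to `Γ` induces isomorphisms
`F/C^jF → Γ/C^jΓ` for all `j ≥ 1`. -/
def P2 (Γ : Type u) [Group Γ] : Prop := ∃ (X : Type u) (φ : FreeGroup X →* Γ),
  ∀ n : ℕ, Function.Bijective (ind φ n)

theorem main {Γ : Type u} [Group Γ] {X : Type v}
    (h : ∀ n : ℕ, Nonempty (Γ ⧸ gam Γ n ≃* FreeGroup X ⧸ gam (FreeGroup X) n)) :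
    ∃ φ : FreeGroup X →* Γ, ∀ n : ℕ, Function.Bijective (ind φ n) := by
  have α := fun n => (h n).some
  choose r hr using fun x : X => QuotientGroup.mk'_surjective (gam Γ 1)
    ((α 1).symm (QuotientGroup.mk' _ (FreeGroup.of x)))
  let φ : FreeGroup X →* Γ := FreeGroup.lift r
  refine ⟨φ, ?_⟩
  have e1 : ind φ 1 = (α 1).symm.toMonoidHom := by
    apply QuotientGroup.monoidHom_ext
    apply FreeGroup.ext_hom
    intro x
    show QuotientGroup.mk' (gam Γ 1) (φ (FreeGroup.of x)) = _
    simp only [φ, FreeGroup.lift_apply_of]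
    exact hr x
  have b1 : Function.Bijective (ind φ 1) := by
    rw [e1]; exact (α 1).symm.bijective
  intro n
  rcases Nat.eq_zero_or_pos n with rfl | hn
  · constructor
    · intro x y _
      obtain ⟨a, rfl⟩ := QuotientGroup.mk'_surjective _ x
      obtain ⟨b, rfl⟩ := QuotientGroup.mk'_surjective _ y
      exact QuotientGroup.eq.2 (Subgroup.mem_top _)
    · intro y
      obtain ⟨b, rfl⟩ := QuotientGroup.mk'_surjective _ y
      exact ⟨1, QuotientGroup.eq.2 (Subgroup.mem_top _)⟩
  · have key : Function.Bijective ((α n).toMonoidHom.comp (ind φ n)) := by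
      apply free_nilp
      · intro y
        obtain ⟨g, hg⟩ := QuotientGroup.mk'_surjective _ ((α n).symm y)
        obtain ⟨z, hz⟩ := b1.2 (QuotientGroup.mk' _ g)
        obtain ⟨x, rfl⟩ := QuotientGroup.mk'_surjective _ z
        have h1 : g⁻¹ * φ x ∈ gam Γ 1 := QuotientGroup.eq.1 hz.symm
        refine ⟨QuotientGroup.mk' _ x, ?_⟩
        have h2 : (α n) (QuotientGroup.mk' (gam Γ n) (g⁻¹ * φ x)) ∈
            gam (FreeGroup X ⧸ gam (FreeGroup X) n) 1 :=
          gam_map_le ((α n).toMonoidHom.comp (QuotientGroup.mk' (gam Γ n))) 1 ⟨_, h1, rfl⟩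
        rw [map_mul, map_inv, hg, map_mul, map_inv, MulEquiv.apply_symm_apply] at h2
        have hnorm : (gam (FreeGroup X ⧸ gam (FreeGroup X) n) 1).Normal := inferInstance
        exact hnorm.mem_comm h2
      · intro x hx
        obtain ⟨g, rfl⟩ := QuotientGroup.mk'_surjective _ x
        have h1 : QuotientGroup.mk' (gam Γ n) (φ g) ∈ gam (Γ ⧸ gam Γ n) 1 := by
          have := gam_map_le (α n).symm.toMonoidHom 1 ⟨_, hx, rfl⟩
          have e : (α n).symm.toMonoidHom (((α n).toMonoidHom.comp (ind φ n)) (QuotientGroup.mk' _ g))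
              = QuotientGroup.mk' (gam Γ n) (φ g) := MulEquiv.symm_apply_apply _ _
          rwa [e] at this
        rw [← gam_map_surj (QuotientGroup.mk' (gam Γ n)) (QuotientGroup.mk'_surjective _) 1] at h1
        obtain ⟨z, hz, hz'⟩ := h1
        have h2 : φ g ∈ gam Γ 1 := by
          have h3 : z⁻¹ * φ g ∈ gam Γ n := QuotientGroup.eq.1 hz'
          have h4 : z⁻¹ * φ g ∈ gam Γ 1 := Subgroup.lowerCentralSeries_antitone _ hn h3
          have := mul_mem hz h4
          rwa [mul_inv_cancel_left] at this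
        have h5 : ind φ 1 (QuotientGroup.mk' _ g) = 1 := (QuotientGroup.eq_one_iff _).2 h2
        have h6 : QuotientGroup.mk' (gam (FreeGroup X) 1) g = 1 := b1.1 (by rw [h5, map_one])
        exact gam_map_le (QuotientGroup.mk' (gam (FreeGroup X) n)) 1
          ⟨g, (QuotientGroup.eq_one_iff _).1 h6, rfl⟩
    exact (Function.Bijective.of_comp_iff' (α n).bijective _).1 key

/-- **Every group with property (P1) has property (P2)** (free groups of arbitrary rank), with
the same free group; and conversely. -/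
theorem result :
    (∀ (Γ : Type u) [Group Γ], P1 Γ ↔ P2 Γ) ∧
    (∀ (Γ : Type u) [Group Γ] (X : Type v),
      (∀ n : ℕ, Nonempty (Γ ⧸ gam Γ n ≃* FreeGroup X ⧸ gam (FreeGroup X) n)) →
      ∃ φ : FreeGroup X →* Γ, ∀ n : ℕ, Function.Bijective (ind φ n)) := by
  refine ⟨fun Γ _ => ⟨?_, ?_⟩, fun Γ _ X h => main h⟩
  · rintro ⟨X, h⟩
    obtain ⟨φ, hφ⟩ := main h
    exact ⟨X, φ, hφ⟩
  · rintro ⟨X, φ, hφ⟩
    exact ⟨X, fun n => ⟨(MulEquiv.ofBijective (ind φ n) (hφ n)).symm⟩⟩

end Pool.Agent.Results.MP_b9ac25_al.FreeTypeInduced
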